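import Pool.Agent.Helper151_HC.Sum

/-!
Balls and their absolute sums.
-/

set_option autoImplicit false

open Set Topology

namespace Pool.Agent.Helper151_HC

theorem ball_cov (d : ℕ) : Cov (Metric.closedBall (0 : EuclideanSpace ℝ (Fin d)) 1) (d + 1) := by
  let v : Option (Fin d) → EuclideanSpace ℝ (Fin d) := fun a =>
    match a with
    | none => -∑ j, EuclideanSpace.single j (1 : ℝ)
    | some j => EuclideanSpace.single j (1 : ℝ)
  have h := cov_of_dirs (K := Metric.closedBall (0 : EuclideanSpace ℝ (Fin d)) 1)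
    (convex_closedBall _ _) (isCompact_closedBall _ _) v
  have hcard : Fintype.card (Option (Fin d)) = d + 1 := by simp
  rw [hcard] at h
  apply h
  intro x hx
  rw [interior_closedBall _ one_ne_zero]
  have hx1 : ‖x‖ ≤ 1 := by simpa using hx
  rcases hx1.lt_or_eq with hlt | heq
  · refine ⟨none, (1 - ‖x‖) / (2 * (‖v none‖ + 1)), ?_, ?_⟩
    · have : 0 < 1 - ‖x‖ := by linarith
      positivity
    · set ε := (1 - ‖x‖) / (2 * (‖v none‖ + 1)) with hε
      have h1 : 0 < ε := by
        have : 0 < 1 - ‖x‖ := by linarith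
        positivity
      have h2 : ε * (2 * (‖v none‖ + 1)) = 1 - ‖x‖ := by
        rw [hε]
        field_simp
      rw [mem_ball_zero_iff]
      calc ‖x + ε • v none‖ ≤ ‖x‖ + ‖ε • v none‖ := norm_add_le _ _
        _ = ‖x‖ + ε * ‖v none‖ := by rw [norm_smul, Real.norm_of_nonneg h1.le]
        _ < 1 := by
          have := norm_nonneg (v none)
          nlinarith
  · obtain ⟨a, ha⟩ : ∃ a, inner ℝ x (v a) < 0 := by
      by_contra hcon
      push Not at hcon
      have h1 : ∀ j, 0 ≤ x j := by
        intro j
        have := hcon (some j)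
        simpa [v, EuclideanSpace.inner_single_right] using this
      have h2 : ∑ j, x j ≤ 0 := by
        have := hcon none
        simpa [v, inner_neg_right, inner_sum, EuclideanSpace.inner_single_right] using this
      have h3 : ∀ j, x j = 0 := by
        intro j
        have h4 := Finset.single_le_sum (f := fun j => x j) (fun j _ => h1 j) (Finset.mem_univ j)
        exact le_antisymm (h4.trans h2) (h1 j)
      have h5 : x = 0 := by
        ext j
        exact h3 j
      rw [h5] at heq
      simp at heq
    set p : ℝ := -inner ℝ x (v a) with hp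
    have hp0 : 0 < p := by linarith
    set V : ℝ := ‖v a‖ ^ 2 with hV
    have hV0 : 0 ≤ V := by positivity
    refine ⟨a, p / (V + 1), by positivity, ?_⟩
    set ε := p / (V + 1) with hε
    have hε0 : 0 < ε := by positivity
    have h2 : ε * (V + 1) = p := by
      rw [hε]
      field_simp
    rw [mem_ball_zero_iff]
    have h3 : ‖x + ε • v a‖ ^ 2 = 1 - 2 * ε * p + ε ^ 2 * V := by
      rw [norm_add_sq_real, heq, inner_smul_right, norm_smul, Real.norm_of_nonneg hε0.le]
      simp only [hp, hV]
      ring
    have h4 : ‖x + ε • v a‖ ^ 2 < 1 := by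
      rw [h3]
      have h5 : ε ^ 2 * V = ε * (p - ε) := by
        have : ε * V = p - ε := by linarith
        rw [sq, mul_assoc, this]
      rw [h5]
      nlinarith
    have h6 := norm_nonneg (x + ε • v a)
    nlinarith

theorem two_pow_le (n : ℕ) (hn : 2 ≤ n) : n + 1 + 1 ≤ 2 ^ n := by
  induction n, hn using Nat.le_induction with
  | base => norm_num
  | succ n hn ih =>
    rw [pow_succ]
    omega

theorem blocks_cov {ι : Type} [Fintype ι] {N : (ι → ℝ) → ℝ} (hN : MonoNorm N) (d : ι → ℕ)
    (hd : ∀ i, 1 ≤ d i) (h1 : (Finset.univ.filter fun i => d i = 1).card ≤ 2) :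
    Cov {x : (i : ι) → EuclideanSpace ℝ (Fin (d i)) | N (fun i => ‖x i‖) ≤ 1}
      (2 ^ ∑ i, d i) := by
  classical
  let K : (i : ι) → Set (EuclideanSpace ℝ (Fin (d i))) := fun i => Metric.closedBall 0 1
  have hK0 : ∀ i, (0 : EuclideanSpace ℝ (Fin (d i))) ∈ interior (K i) := by
    intro i
    simp only [K]
    rw [interior_closedBall _ one_ne_zero]
    simp
  have h2 := nsum_cov (K := K) hN (fun i => convex_closedBall _ _)
    (fun i => isCompact_closedBall _ _) hK0 (fun i => d i + 1) (fun i => ball_cov (d i))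
    (Finset.univ.filter fun i => d i = 1) (by
      have h3 : ∑ i ∈ Finset.univ.filter (fun i => d i = 1), (1 : ℝ) / ((d i + 1 : ℕ) : ℝ) =
          ∑ i ∈ Finset.univ.filter (fun i => d i = 1), (1 / 2 : ℝ) := by
        apply Finset.sum_congr rfl
        intro i hi
        rw [(Finset.mem_filter.1 hi).2]
        norm_num
      rw [h3, Finset.sum_const, nsmul_eq_mul]
      have : ((Finset.univ.filter fun i => d i = 1).card : ℝ) ≤ 2 := by exact_mod_cast h1
      linarith)
  have h4 : nsum N K = {x : (i : ι) → EuclideanSpace ℝ (Fin (d i)) | N (fun i => ‖x i‖) ≤ 1} := by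
    ext x
    have h5 : (fun i => gauge (K i) (x i)) = fun i => ‖x i‖ := by
      funext i
      simp only [K]
      rw [gauge_closedBall zero_le_one, div_one]
    change N (fun i => gauge (K i) (x i)) ≤ 1 ↔ N (fun i => ‖x i‖) ≤ 1
    rw [h5]
  rw [h4] at h2
  obtain ⟨T, hT, hcov⟩ := h2
  refine ⟨T, hT.trans ?_, hcov⟩
  rw [← Finset.prod_pow_eq_pow_sum]
  apply Finset.prod_le_prod'
  intro i _
  by_cases hi : d i = 1
  · simp [hi]
  · simp only [Finset.mem_filter, Finset.mem_univ, true_and, if_neg hi]
    exact two_pow_le (d i) (by have := hd i; omega)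

end Pool.Agent.Helper151_HC
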