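import Mathlib

/-!
Orders on coordinates attached to the points of a product, with every partial pattern followed by
an order in which its support comes first.
-/

set_option autoImplicit false

namespace Pool.Agent.Helper151_HC

/-- disjoint intervals of prescribed lengths -/
theorem arcs {ι : Type} [DecidableEq ι] (w : ι → ℕ) (J : Finset ι) :
    ∃ b : ι → ℕ, (∀ j ∈ J, b j + w j ≤ ∑ i ∈ J, w i) ∧
      ∀ i ∈ J, ∀ j ∈ J, i ≠ j → b i + w i ≤ b j ∨ b j + w j ≤ b i := by
  induction J using Finset.induction_on with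
  | empty => exact ⟨fun _ => 0, by simp, by simp⟩
  | insert a J ha ih =>
    obtain ⟨b, hb1, hb2⟩ := ih
    refine ⟨fun i => if i = a then ∑ i ∈ J, w i else b i, ?_, ?_⟩
    · intro j hj
      beta_reduce
      rw [Finset.sum_insert ha]
      by_cases hja : j = a
      · subst hja
        simp
        omega
      · rw [if_neg hja]
        have := hb1 j ((Finset.mem_insert.1 hj).resolve_left hja)
        omega
    · intro i hi j hj hij
      beta_reduce
      by_cases hia : i = a
      · have hja : j ≠ a := fun h => hij (hia.trans h.symm)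
        right
        rw [if_neg hja, if_pos hia]
        exact hb1 j ((Finset.mem_insert.1 hj).resolve_left hja)
      · by_cases hja : j = a
        · left
          rw [if_neg hia, if_pos hja]
          exact hb1 i ((Finset.mem_insert.1 hi).resolve_left hia)
        · rw [if_neg hia, if_neg hja]
          exact hb2 i ((Finset.mem_insert.1 hi).resolve_left hia) j
            ((Finset.mem_insert.1 hj).resolve_left hja) hij

/-- an arithmetic progression of difference `w` modulo `c * w` meets every interval of length `w` -/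
theorem hit (c w b A : ℕ) (hc : 0 < c) (hw : 0 < w) (hb : b + w ≤ c * w) :
    ∃ t, t < c ∧ b ≤ (A + t * w) % (c * w) ∧ (A + t * w) % (c * w) < b + w := by
  have hP : 0 < c * w := Nat.mul_pos hc hw
  obtain ⟨q, r, hA, hr⟩ : ∃ q r, A = c * w * q + r ∧ r < c * w :=
    ⟨A / (c * w), A % (c * w), (Nat.div_add_mod _ _).symm, Nat.mod_lt _ hP⟩
  -- the next multiple of `w`
  obtain ⟨t0, h1, h2⟩ : ∃ t0, b + c * w ≤ r + t0 * w ∧ r + t0 * w < b + c * w + w := by
    refine ⟨(b + c * w - r + (w - 1)) / w, ?_, ?_⟩
    · have h3 := Nat.div_add_mod (b + c * w - r + (w - 1)) w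
      have h4 := Nat.mod_lt (b + c * w - r + (w - 1)) hw
      rw [mul_comm] at h3
      omega
    · have h3 := Nat.div_add_mod (b + c * w - r + (w - 1)) w
      rw [mul_comm] at h3
      omega
  refine ⟨t0 % c, Nat.mod_lt _ hc, ?_⟩
  have h5 : (A + t0 % c * w) % (c * w) = r + t0 * w - c * w := by
    have h6 : A + t0 * w = (A + t0 % c * w) + (c * w) * (t0 / c) := by
      have := Nat.div_add_mod t0 c
      calc A + t0 * w = A + (c * (t0 / c) + t0 % c) * w := by rw [this]
        _ = _ := by ring
    have h7 : (A + t0 * w) % (c * w) = (A + t0 % c * w) % (c * w) := by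
      rw [h6, Nat.add_mul_mod_self_left]
    have h8 : A + t0 * w = (r + t0 * w - c * w) + (c * w) * (q + 1) := by
      have h9 : r + t0 * w - c * w + c * w = r + t0 * w := by omega
      calc A + t0 * w = c * w * q + (r + t0 * w) := by rw [hA]; ring
        _ = c * w * q + (r + t0 * w - c * w + c * w) := by rw [h9]
        _ = _ := by ring
    rw [← h7, h8, Nat.add_mul_mod_self_left, Nat.mod_eq_of_lt]
    omega
  rw [h5]
  omega

/-- the orders -/
theorem kraft {ι : Type} [DecidableEq ι] (c : ι → ℕ) (J : Finset ι) (hc : ∀ i, 0 < c i)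
    (hJ : ∑ i ∈ J, (1 : ℝ) / c i ≤ 1) :
    ∃ r : ((i : ι) → Fin (c i)) → ι → ℕ, (∀ a, ∀ i ∈ J, 1 ≤ r a i ∧ r a i ≤ J.card) ∧
      (∀ a b, (∀ i ∈ J, a i = b i) → r a = r b) ∧
      ∀ S ⊆ J, ∀ σ : (i : ι) → Fin (c i), ∃ a : (i : ι) → Fin (c i),
        (∀ i, i ∉ J \ S → a i = σ i) ∧ ∀ i ∈ S, ∀ j ∈ J \ S, r a i < r a j := by
  induction hn : J.card generalizing J with
  | zero =>
    rw [Finset.card_eq_zero] at hn
    subst hn
    refine ⟨fun _ _ => 1, by simp, fun _ _ _ => rfl, ?_⟩
    intro S hS σ
    exact ⟨σ, fun _ _ => rfl, by simp⟩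
  | succ n ih =>
    have hr : ∀ j : ι, ∃ r : ((i : ι) → Fin (c i)) → ι → ℕ, j ∈ J →
        (∀ a, ∀ i ∈ J.erase j, 1 ≤ r a i ∧ r a i ≤ n) ∧
        (∀ a b, (∀ i ∈ J.erase j, a i = b i) → r a = r b) ∧
        ∀ S ⊆ J.erase j, ∀ σ : (i : ι) → Fin (c i), ∃ a : (i : ι) → Fin (c i),
          (∀ i, i ∉ J.erase j \ S → a i = σ i) ∧ ∀ i ∈ S, ∀ l ∈ J.erase j \ S, r a i < r a l := by
      intro j
      by_cases hj : j ∈ J
      · have h1 : ∑ i ∈ J.erase j, (1 : ℝ) / c i ≤ 1 :=
          (Finset.sum_le_sum_of_subset_of_nonneg (Finset.erase_subset _ _)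
            (fun i _ _ => by positivity)).trans hJ
        obtain ⟨r, h⟩ := ih (J.erase j) h1 (by rw [Finset.card_erase_of_mem hj, hn]; rfl)
        exact ⟨r, fun _ => h⟩
      · exact ⟨fun _ _ => 0, fun h => absurd h hj⟩
    choose r hr using hr
    -- arcs on the circle
    let P : ℕ := ∏ i ∈ J, c i
    have hP : 0 < P := Finset.prod_pos fun i _ => hc i
    let w : ι → ℕ := fun i => P / c i
    have hw : ∀ i ∈ J, c i * w i = P := fun i hi =>
      Nat.mul_div_cancel' (Finset.dvd_prod_of_mem c hi)
    have hw0 : ∀ i ∈ J, 0 < w i := by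
      intro i hi
      by_contra h0
      have h1 : w i = 0 := by omega
      have h2 := hw i hi
      rw [h1, mul_zero] at h2
      omega
    have hsum : ∑ i ∈ J, w i ≤ P := by
      have h1 : ((∑ i ∈ J, w i : ℕ) : ℝ) = P * ∑ i ∈ J, (1 : ℝ) / c i := by
        rw [Nat.cast_sum, Finset.mul_sum]
        apply Finset.sum_congr rfl
        intro i hi
        have h2 : ((c i : ℝ) * w i) = P := by exact_mod_cast hw i hi
        have h3 : (c i : ℝ) ≠ 0 := by
          have := hc i
          positivity
        field_simp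
        linarith
      have h4 : ((∑ i ∈ J, w i : ℕ) : ℝ) ≤ P := by
        rw [h1]
        calc (P : ℝ) * ∑ i ∈ J, (1 : ℝ) / c i ≤ P * 1 := by gcongr
          _ = P := mul_one _
      exact_mod_cast h4
    obtain ⟨b, hb1, hb2⟩ := arcs w J
    let θ : ((i : ι) → Fin (c i)) → ℕ := fun a => (∑ i ∈ J, (a i : ℕ) * w i) % P
    have hθ : ∀ a a' : (i : ι) → Fin (c i), (∀ i ∈ J, a i = a' i) → θ a = θ a' := by
      intro a a' h
      simp only [θ]
      congr 1
      exact Finset.sum_congr rfl fun i hi => by rw [h i hi]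
    classical
    let L : ((i : ι) → Fin (c i)) → ι → Prop := fun a j => j ∈ J ∧ b j ≤ θ a ∧ θ a < b j + w j
    have hLu : ∀ a j j', L a j → L a j' → j = j' := by
      rintro a j j' ⟨h1, h2, h3⟩ ⟨h4, h5, h6⟩
      by_contra hne
      rcases hb2 j h1 j' h4 hne with h | h <;> omega
    let R : ((i : ι) → Fin (c i)) → ι → ℕ := fun a i =>
      if h : ∃ j, L a j then (if i = h.choose then n + 1 else r h.choose a i) else 1
    have hR : ∀ a j, L a j → R a = fun i => if i = j then n + 1 else r j a i := by
      intro a j hj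
      have hex : ∃ j, L a j := ⟨j, hj⟩
      have : hex.choose = j := hLu a _ _ hex.choose_spec hj
      funext i
      simp only [R]
      rw [dif_pos hex, this]
    have hR0 : ∀ a, (¬ ∃ j, L a j) → R a = fun _ => 1 := by
      intro a h
      funext i
      simp only [R]
      rw [dif_neg h]
    refine ⟨R, ?_, ?_, ?_⟩
    · intro a i hi
      by_cases h : ∃ j, L a j
      · obtain ⟨j, hj⟩ := h
        rw [hR a j hj]
        by_cases hij : i = j
        · simp [hij]
        · simp only [if_neg hij]
          have := (hr j hj.1).1 a i (Finset.mem_erase.2 ⟨hij, hi⟩)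
          omega
      · rw [hR0 a h]
        simp
    · intro a a' haa
      by_cases h : ∃ j, L a j
      · obtain ⟨j, hj⟩ := h
        have hj' : L a' j := by
          have := hθ a a' haa
          exact ⟨hj.1, this ▸ hj.2.1, this ▸ hj.2.2⟩
        rw [hR a j hj, hR a' j hj',
          (hr j hj.1).2.1 a a' fun i hi => haa i (Finset.mem_of_mem_erase hi)]
      · have h' : ¬ ∃ j, L a' j := by
          rintro ⟨j, hj⟩
          have := hθ a a' haa
          exact h ⟨j, hj.1, this ▸ hj.2.1, this ▸ hj.2.2⟩
        rw [hR0 a h, hR0 a' h']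
    · intro S hS σ
      by_cases hSJ : S = J
      · subst hSJ
        exact ⟨σ, fun _ _ => rfl, by simp⟩
      · obtain ⟨j, hjJ, hjS⟩ : ∃ j ∈ J, j ∉ S := by
          by_contra hcon
          push Not at hcon
          exact hSJ (Finset.Subset.antisymm hS hcon)
        have hSe : S ⊆ J.erase j := fun i hi =>
          Finset.mem_erase.2 ⟨fun h => hjS (h ▸ hi), hS hi⟩
        obtain ⟨a', ha1, ha2⟩ := (hr j hjJ).2.2 S hSe σ
        obtain ⟨t, ht, ht1, ht2⟩ := hit (c j) (w j) (b j) (∑ i ∈ J.erase j, (a' i : ℕ) * w i)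
          (hc j) (hw0 j hjJ) ((hb1 j hjJ).trans (by rw [hw j hjJ]; exact hsum))
        let a : (i : ι) → Fin (c i) := Function.update a' j ⟨t, ht⟩
        have haj : (a j : ℕ) = t := by simp [a]
        have hai : ∀ i, i ≠ j → a i = a' i := fun i hi => by simp [a, hi]
        have hθa : θ a = (∑ i ∈ J.erase j, (a' i : ℕ) * w i + t * w j) % (c j * w j) := by
          simp only [θ]
          rw [← hw j hjJ]
          congr 1
          rw [← Finset.sum_erase_add _ _ hjJ, haj]
          congr 1
          exact Finset.sum_congr rfl fun i hi => by rw [hai i (Finset.ne_of_mem_erase hi)]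
        have hL : L a j := ⟨hjJ, by rw [hθa]; exact ht1, by rw [hθa]; exact ht2⟩
        have hra : r j a = r j a' := (hr j hjJ).2.1 a a' fun i hi =>
          hai i (Finset.ne_of_mem_erase hi)
        refine ⟨a, ?_, ?_⟩
        · intro i hi
          have hij : i ≠ j := by
            rintro rfl
            exact hi (Finset.mem_sdiff.2 ⟨hjJ, hjS⟩)
          rw [hai i hij]
          apply ha1
          intro h
          apply hi
          rw [Finset.mem_sdiff] at h ⊢
          exact ⟨Finset.mem_of_mem_erase h.1, h.2⟩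
        · intro i hi l hl
          rw [hR a j hL, hra]
          have hij : i ≠ j := fun h => hjS (h ▸ hi)
          simp only [if_neg hij]
          by_cases hlj : l = j
          · rw [if_pos hlj]
            have := (hr j hjJ).1 a' i (hSe hi)
            omega
          · rw [if_neg hlj]
            apply ha2 i hi l
            rw [Finset.mem_sdiff] at hl ⊢
            exact ⟨Finset.mem_erase.2 ⟨hlj, hl.1⟩, hl.2⟩

end Pool.Agent.Helper151_HC
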