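import Pool.Agent.Helper151_HC.Defs
import Pool.Agent.Helper151_HC.Kraft

/-!
Coverings by translates of the interior and directions.
-/

set_option autoImplicit false

open Set Topology

namespace Pool.Agent.Helper151_HC

/-! ### monotone norms -/

section norm
variable {ι : Type} {N : (ι → ℝ) → ℝ} (hN : MonoNorm N)
include hN

theorem MonoNorm.zero : N 0 = 0 := by
  have := hN.smul 0 0
  simpa using this

theorem MonoNorm.nonneg (a : ι → ℝ) : 0 ≤ N a := by
  rw [← hN.zero]
  exact hN.mono 0 a fun i => by simp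

theorem MonoNorm.mono' (a b : ι → ℝ) (ha : ∀ i, 0 ≤ a i) (hab : ∀ i, a i ≤ b i) : N a ≤ N b :=
  hN.mono a b fun i => by
    rw [abs_of_nonneg (ha i), abs_of_nonneg ((ha i).trans (hab i))]
    exact hab i

theorem MonoNorm.lip [Fintype ι] (a b : ι → ℝ) : N a ≤ N b + ‖a - b‖ * N (fun _ => 1) := by
  have h1 : N a ≤ N b + N (a - b) := by
    have := hN.add b (a - b)
    rwa [add_sub_cancel] at this
  have h2 : N (a - b) ≤ N (‖a - b‖ • fun _ => (1 : ℝ)) := by
    apply hN.mono
    intro i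
    have h3 := norm_le_pi_norm (a - b) i
    simp only [Pi.smul_apply, smul_eq_mul, mul_one]
    rw [abs_of_nonneg (norm_nonneg (a - b))]
    exact h3
  rw [hN.smul, abs_of_nonneg (norm_nonneg _)] at h2
  linarith

theorem MonoNorm.continuous [Fintype ι] : Continuous N := by
  have h0 : 0 ≤ N (fun _ => 1) := hN.nonneg _
  have : LipschitzWith (Real.toNNReal (N fun _ => 1)) N := by
    apply LipschitzWith.of_dist_le_mul
    intro a b
    rw [Real.dist_eq, dist_eq_norm, Real.coe_toNNReal _ h0, abs_le]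
    have h1 := hN.lip a b
    have h2 := hN.lip b a
    rw [norm_sub_rev] at h2
    constructor <;> linarith
  exact this.continuous

theorem MonoNorm.bound [Fintype ι] [DecidableEq ι] :
    ∃ R : ℝ, 0 < R ∧ ∀ a : ι → ℝ, N a ≤ 1 → ∀ i, a i ≤ R := by
  have hpos : ∀ i, 0 < N (Pi.single i 1) := fun i => hN.pos _ (by simp)
  refine ⟨1 + ∑ i, 1 / N (Pi.single i 1), ?_, ?_⟩
  · have : 0 ≤ ∑ i, 1 / N (Pi.single i 1) := Finset.sum_nonneg fun i _ => by
      have := hpos i
      positivity
    linarith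
  · intro a ha i
    have h1 : N (a i • Pi.single i (1 : ℝ)) ≤ N a := by
      apply hN.mono
      intro j
      by_cases hj : j = i
      · subst hj; simp
      · simp [hj]
    rw [hN.smul] at h1
    have h2 : |a i| ≤ 1 / N (Pi.single i 1) := by
      rw [le_div_iff₀ (hpos i)]
      linarith
    have h3 : 1 / N (Pi.single i 1) ≤ ∑ i, 1 / N (Pi.single i 1) :=
      Finset.single_le_sum (f := fun i => 1 / N (Pi.single i 1))
        (fun i _ => by have := hpos i; positivity) (Finset.mem_univ i)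
    have := le_abs_self (a i)
    linarith

end norm

/-! ### directions and coverings -/

section cov
variable {E : Type} [NormedAddCommGroup E] [NormedSpace ℝ E] {K : Set E}

/-- finitely many directions that lead every point into the interior give a covering -/
theorem cov_of_dirs (hc : Convex ℝ K) (hK : IsCompact K) {α : Type} [Fintype α] (v : α → E)
    (h : ∀ x ∈ K, ∃ a, ∃ ε : ℝ, 0 < ε ∧ x + ε • v a ∈ interior K) : Cov K (Fintype.card α) := by
  classical
  -- smaller steps work too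
  have hsmall : ∀ x ∈ K, ∀ a (ε ε' : ℝ), 0 < ε' → ε' ≤ ε → x + ε • v a ∈ interior K →
      x + ε' • v a ∈ interior K := by
    intro x hx a ε ε' h1 h2 h3
    have hε : 0 < ε := h1.trans_le h2
    have h4 := hc.combo_self_interior_mem_interior hx h3 (a := 1 - ε' / ε) (b := ε' / ε)
      (by rw [sub_nonneg, div_le_one hε]; exact h2) (by positivity) (by ring)
    have h5 : (1 - ε' / ε) • x + (ε' / ε) • (x + ε • v a) = x + ε' • v a := by
      rw [smul_add, smul_smul, div_mul_cancel₀ _ hε.ne', ← add_assoc, ← add_smul]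
      simp
    rwa [h5] at h4
  let W : ℕ → Set E := fun n => {x | ∃ m : ℕ, m ≤ n ∧ ∃ a, x + (1 / ((m : ℝ) + 1)) • v a ∈ interior K}
  have hWo : ∀ n, IsOpen (W n) := by
    intro n
    have : W n = ⋃ m : ℕ, ⋃ _ : m ≤ n, ⋃ a,
        (fun x => x + (1 / ((m : ℝ) + 1)) • v a) ⁻¹' interior K := by
      ext x
      simp [W]
    rw [this]
    refine isOpen_iUnion fun m => isOpen_iUnion fun _ => isOpen_iUnion fun a => ?_
    exact isOpen_interior.preimage (by fun_prop)
  have hWm : Monotone W := by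
    intro n n' hnn x hx
    obtain ⟨m, hm, a, ha⟩ := hx
    exact ⟨m, hm.trans hnn, a, ha⟩
  have hKW : K ⊆ ⋃ n, W n := by
    intro x hx
    obtain ⟨a, ε, hε, ha⟩ := h x hx
    obtain ⟨n, hn⟩ := exists_nat_one_div_lt hε
    exact mem_iUnion.2 ⟨n, n, le_rfl, a, hsmall x hx a ε _ (by positivity) hn.le ha⟩
  obtain ⟨n, hn⟩ := hK.elim_directed_cover W hWo hKW hWm.directed_le
  refine ⟨Finset.univ.image fun a => -((1 / ((n : ℝ) + 1)) • v a), ?_, ?_⟩
  · exact Finset.card_image_le.trans (by rw [Finset.card_univ])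
  · intro x hx
    obtain ⟨m, hm, a, ha⟩ := hn hx
    have h1 : x + (1 / ((n : ℝ) + 1)) • v a ∈ interior K := by
      refine hsmall x hx a _ _ (by positivity) ?_ ha
      have : (m : ℝ) ≤ n := by exact_mod_cast hm
      gcongr
    simp only [Finset.mem_image, Finset.mem_univ, true_and, mem_iUnion, exists_prop, mem_image]
    exact ⟨_, ⟨a, rfl⟩, _, h1, by simp⟩

theorem absorbent_of_mem_nhds (h0 : (0 : E) ∈ interior K) : Absorbent ℝ K :=
  absorbent_nhds_zero (mem_interior_iff_mem_nhds.1 h0)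

/-- a covering gives directions with a uniform rate -/
theorem dirs_of_cov (hc : Convex ℝ K) (hK : IsCompact K) (h0 : (0 : E) ∈ interior K) {c : ℕ}
    (hcov : Cov K c) : 0 < c ∧ ∃ (u : Fin c → E) (η : ℝ), 0 < η ∧ ∀ x : E, x ≠ 0 → ∃ j,
      ∀ ε : ℝ, 0 ≤ ε → ε ≤ gauge K x → gauge K (x + ε • u j) ≤ gauge K x - ε * η := by
  classical
  have hn : K ∈ 𝓝 (0 : E) := mem_interior_iff_mem_nhds.1 h0
  have habs : Absorbent ℝ K := absorbent_nhds_zero hn
  have hcont : Continuous (gauge K) := continuous_gauge hc hn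
  obtain ⟨T, hT, hKT⟩ := hcov
  have hTne : T.Nonempty := by
    have := hKT (interior_subset h0)
    simp only [mem_iUnion] at this
    obtain ⟨t, ht, -⟩ := this
    exact ⟨t, ht⟩
  have hc0 : 0 < c := (Finset.card_pos.2 hTne).trans_le hT
  refine ⟨hc0, ?_⟩
  -- the uniform rate
  let f : E → ℝ := fun x => T.inf' hTne fun t => gauge K (x - t)
  have hf : Continuous f := Continuous.finset_inf'_apply hTne fun t _ => by fun_prop
  obtain ⟨x0, hx0, hmax⟩ := hK.exists_isMaxOn ⟨0, interior_subset h0⟩ hf.continuousOn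
  have hlt : f x0 < 1 := by
    have := hKT hx0
    simp only [mem_iUnion, exists_prop, mem_image] at this
    obtain ⟨t, ht, y, hy, hxy⟩ := this
    have h1 : gauge K (x0 - t) < 1 := by
      rw [gauge_lt_one_iff_mem_interior hc hn, ← hxy]
      simpa using hy
    exact (Finset.inf'_le _ ht).trans_lt h1
  have hrate : ∀ x ∈ K, ∃ t ∈ T, gauge K (x - t) ≤ f x0 := by
    intro x hx
    obtain ⟨t, ht, h1⟩ := Finset.exists_mem_eq_inf' hTne fun t => gauge K (x - t)
    refine ⟨t, ht, ?_⟩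
    rw [← h1]
    exact hmax hx
  -- numbering of the directions
  let e := T.equivFin
  let u : Fin c → E := fun j => if h : j.1 < T.card then -(e.symm ⟨j.1, h⟩ : E) else 0
  have hu : ∀ t ∈ T, ∃ j, u j = -t := by
    intro t ht
    refine ⟨⟨(e ⟨t, ht⟩).1, (e ⟨t, ht⟩).2.trans_le hT⟩, ?_⟩
    simp only [u]
    rw [dif_pos (e ⟨t, ht⟩).2]
    simp
  refine ⟨u, 1 - f x0, by linarith, ?_⟩
  intro x hx
  have hbd : Bornology.IsVonNBounded ℝ K := (NormedSpace.isVonNBounded_iff ℝ).2 hK.isBounded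
  have hs : 0 < gauge K x := (gauge_pos habs hbd).2 hx
  set s := gauge K x with hsdef
  have hy1 : gauge K (s⁻¹ • x) = 1 := by
    rw [gauge_smul_of_nonneg (by positivity : (0:ℝ) ≤ s⁻¹), smul_eq_mul, ← hsdef,
      inv_mul_cancel₀ hs.ne']
  have hyK : s⁻¹ • x ∈ K := by
    have := (gauge_le_one_iff_mem_closure hc hn).1 hy1.le
    rwa [hK.isClosed.closure_eq] at this
  obtain ⟨t, ht, hgt⟩ := hrate _ hyK
  obtain ⟨j, hj⟩ := hu t ht
  refine ⟨j, fun ε hε0 hεs => ?_⟩
  rw [hj]
  have h1 : x + ε • (-t) = (s - ε) • (s⁻¹ • x) + ε • (s⁻¹ • x - t) := by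
    rw [smul_sub, smul_smul, smul_smul, ← add_sub_assoc, ← add_smul]
    have : (s - ε) * s⁻¹ + ε * s⁻¹ = 1 := by field_simp; ring
    rw [this, one_smul, smul_neg]
    abel
  rw [h1]
  calc gauge K ((s - ε) • (s⁻¹ • x) + ε • (s⁻¹ • x - t))
      ≤ gauge K ((s - ε) • (s⁻¹ • x)) + gauge K (ε • (s⁻¹ • x - t)) :=
        gauge_add_le hc habs _ _
    _ = (s - ε) * gauge K (s⁻¹ • x) + ε * gauge K (s⁻¹ • x - t) := by
        rw [gauge_smul_of_nonneg (by linarith : (0:ℝ) ≤ s - ε), gauge_smul_of_nonneg hε0,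
          smul_eq_mul, smul_eq_mul]
    _ ≤ (s - ε) * 1 + ε * f x0 := by
        rw [hy1]
        gcongr
    _ = s - ε * (1 - f x0) := by ring

end cov

end Pool.Agent.Helper151_HC
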