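import Mathlib

/-!
Coverings of convex bodies by translates of their interiors; absolute sums of convex bodies.
-/

set_option autoImplicit false

namespace Pool.Agent.Helper151_HC

/-- `K` is covered by at most `c` translates of its interior. -/
def Cov {E : Type} [AddCommGroup E] [TopologicalSpace E] (K : Set E) (c : ℕ) : Prop :=
  ∃ T : Finset E, T.card ≤ c ∧ K ⊆ ⋃ t ∈ T, (fun x => t + x) '' interior K

/-- Monotone (that is, absolute) norms on `ℝ^ι`. -/
structure MonoNorm {ι : Type} (N : (ι → ℝ) → ℝ) : Prop where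
  add : ∀ a b, N (a + b) ≤ N a + N b
  smul : ∀ (r : ℝ) (a : ι → ℝ), N (r • a) = |r| * N a
  pos : ∀ a, a ≠ 0 → 0 < N a
  mono : ∀ a b : ι → ℝ, (∀ i, |a i| ≤ |b i|) → N a ≤ N b

/-- The `N`-sum of the sets `K i`: the points `x` with `N (g_i (x_i))_i ≤ 1`, where `g_i` is the
gauge (Minkowski functional) of `K i`. -/
def nsum {ι : Type} {E : ι → Type} [∀ i, AddCommGroup (E i)] [∀ i, Module ℝ (E i)]
    (N : (ι → ℝ) → ℝ) (K : (i : ι) → Set (E i)) : Set ((i : ι) → E i) :=
  {x | N (fun i => gauge (K i) (x i)) ≤ 1}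

end Pool.Agent.Helper151_HC
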