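import Pool.Agent.Helper151_HC.Basic

/-!
Coverings of absolute sums of convex bodies.
-/

set_option autoImplicit false

open Set Topology

namespace Pool.Agent.Helper151_HC

section
variable {ι : Type} [Fintype ι] [DecidableEq ι] {E : ι → Type} [∀ i, NormedAddCommGroup (E i)]
  [∀ i, NormedSpace ℝ (E i)] {K : (i : ι) → Set (E i)} {N : (ι → ℝ) → ℝ} (hN : MonoNorm N)
  (hc : ∀ i, Convex ℝ (K i)) (hK : ∀ i, IsCompact (K i)) (h0 : ∀ i, (0 : E i) ∈ interior (K i))

include hc h0 in
omit [Fintype ι] [DecidableEq ι] in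
theorem gauge_add (i : ι) (x y : E i) : gauge (K i) (x + y) ≤ gauge (K i) x + gauge (K i) y :=
  gauge_add_le (hc i) (absorbent_of_mem_nhds (h0 i)) _ _

include hc h0 in
theorem gvec_continuous : Continuous fun x : (i : ι) → E i => fun i => gauge (K i) (x i) :=
  continuous_pi fun i => (continuous_gauge (hc i) (mem_interior_iff_mem_nhds.1 (h0 i))).comp
    (continuous_apply i)

include hN hc h0 in
theorem nsum_open : IsOpen {x : (i : ι) → E i | N (fun i => gauge (K i) (x i)) < 1} :=
  isOpen_lt (hN.continuous.comp (gvec_continuous hc h0)) continuous_const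

include hN hc h0 in
theorem nsum_closed : IsClosed (nsum N K) :=
  isClosed_le (hN.continuous.comp (gvec_continuous hc h0)) continuous_const

include hN hc h0 in
theorem nsum_sub_interior {x : (i : ι) → E i} (hx : N (fun i => gauge (K i) (x i)) < 1) :
    x ∈ interior (nsum N K) := by
  have h1 : {x : (i : ι) → E i | N (fun i => gauge (K i) (x i)) < 1} ⊆ nsum N K := by
    intro y hy
    have h2 : N (fun i => gauge (K i) (y i)) < 1 := hy
    exact h2.le
  exact interior_maximal h1 (nsum_open hN hc h0) hx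

include hN hc h0 in
theorem nsum_zero : (0 : (i : ι) → E i) ∈ interior (nsum N K) := by
  apply nsum_sub_interior hN hc h0
  have : (fun i => gauge (K i) ((0 : (i : ι) → E i) i)) = 0 := by
    funext i
    simp
  rw [this, hN.zero]
  norm_num

include hN hc h0 in
omit [Fintype ι] [DecidableEq ι] in
theorem nsum_convex : Convex ℝ (nsum N K) := by
  intro x hx y hy a b ha hb hab
  have h1 : N (fun i => gauge (K i) ((a • x + b • y) i)) ≤
      N (a • (fun i => gauge (K i) (x i)) + b • fun i => gauge (K i) (y i)) := by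
    apply hN.mono' _ _ (fun i => gauge_nonneg _)
    intro i
    have := gauge_add hc h0 i (a • x i) (b • y i)
    rw [gauge_smul_of_nonneg ha, gauge_smul_of_nonneg hb] at this
    exact this
  have h2 := hN.add (a • (fun i => gauge (K i) (x i))) (b • fun i => gauge (K i) (y i))
  rw [hN.smul, hN.smul, abs_of_nonneg ha, abs_of_nonneg hb] at h2
  have h3 : N (fun i => gauge (K i) (x i)) ≤ 1 := hx
  have h4 : N (fun i => gauge (K i) (y i)) ≤ 1 := hy
  change N (fun i => gauge (K i) ((a • x + b • y) i)) ≤ 1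
  nlinarith

include hN hc hK h0 in
theorem nsum_compact : IsCompact (nsum N K) := by
  obtain ⟨R, hR, hb⟩ := hN.bound
  refine IsCompact.of_isClosed_subset (isCompact_univ_pi fun i => (hK i).smul R)
    (nsum_closed hN hc h0) ?_
  intro x hx i _
  have h1 : gauge (K i) (x i) ≤ R := hb _ hx i
  have h2 : gauge (K i) (R⁻¹ • x i) ≤ 1 := by
    rw [gauge_smul_of_nonneg (by positivity : (0:ℝ) ≤ R⁻¹), smul_eq_mul, inv_mul_le_iff₀ hR]
    simpa using h1
  have h3 := (gauge_le_one_iff_mem_closure (hc i) (mem_interior_iff_mem_nhds.1 (h0 i))).1 h2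
  rw [(hK i).isClosed.closure_eq] at h3
  exact ⟨_, h3, by simp [smul_smul, hR.ne']⟩

include hN hc hK h0 in
/-- The directions for absolute sums. -/
theorem nsum_dirs (c : ι → ℕ) (hcov : ∀ i, Cov (K i) (c i))
    (J : Finset ι) (hJ : ∑ i ∈ J, (1 : ℝ) / c i ≤ 1) (cn : ι → ℕ)
    (hcnJ : ∀ i ∈ J, cn i = c i) (hcnJ' : ∀ i, i ∉ J → cn i = c i + 1) :
    ∃ v : ((i : ι) → Fin (cn i)) → (i : ι) → E i, ∀ x : (i : ι) → E i,
      N (fun i => gauge (K i) (x i)) ≤ 1 → ∃ a, ∃ ε : ℝ, 0 < ε ∧
        N (fun i => gauge (K i) (x i + ε • v a i)) < 1 := by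
  have hdir := fun i => dirs_of_cov (hc i) (hK i) (h0 i) (hcov i)
  have hc0 : ∀ i, 0 < c i := fun i => (hdir i).1
  choose u η' hη' hu using fun i => (hdir i).2
  -- numbers of labels
  have hcn : ∀ i, c i ≤ cn i := by
    intro i
    by_cases hi : i ∈ J
    · rw [hcnJ i hi]
    · rw [hcnJ' i hi]
      omega
  have hcn0 : ∀ i, 0 < cn i := fun i => (hc0 i).trans_le (hcn i)
  obtain ⟨r, hr1, -, hr3⟩ := kraft cn J hcn0 (by
    rw [Finset.sum_congr rfl fun i hi => by rw [hcnJ i hi]]
    exact hJ)
  -- constants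
  obtain ⟨R, hR, hb⟩ := hN.bound
  obtain ⟨η, hη, hηi⟩ : ∃ η : ℝ, 0 < η ∧ ∀ i, η ≤ η' i := by
    rcases isEmpty_or_nonempty ι with h | h
    · exact ⟨1, one_pos, fun i => h.elim i⟩
    · obtain ⟨i0, hi0⟩ := Finite.exists_min η'
      exact ⟨η' i0, hη' i0, hi0⟩
  let G : ℝ := ∑ i, ∑ j, gauge (K i) (u i j)
  have hG : ∀ i j, gauge (K i) (u i j) ≤ G := by
    intro i j
    have h1 : gauge (K i) (u i j) ≤ ∑ j, gauge (K i) (u i j) :=
      Finset.single_le_sum (f := fun j => gauge (K i) (u i j)) (fun _ _ => gauge_nonneg _)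
        (Finset.mem_univ j)
    have h2 : ∑ j, gauge (K i) (u i j) ≤ G :=
      Finset.single_le_sum (f := fun i => ∑ j, gauge (K i) (u i j))
        (fun _ _ => Finset.sum_nonneg fun _ _ => gauge_nonneg _) (Finset.mem_univ i)
    exact h1.trans h2
  have hG0 : 0 ≤ G := Finset.sum_nonneg fun _ _ => Finset.sum_nonneg fun _ _ => gauge_nonneg _
  set N1 : ℝ := N (fun _ => 1) with hN1
  have hN10 : 0 ≤ N1 := hN.nonneg _
  obtain ⟨δ, hδ0, hδ1, hδ⟩ : ∃ δ : ℝ, 0 < δ ∧ δ ≤ 1 ∧ δ * G * N1 < η / R := by
    refine ⟨η / (R * (G * N1 + 1) + η), by positivity, ?_, ?_⟩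
    · rw [div_le_one (by positivity)]
      have : 0 ≤ R * (G * N1 + 1) := by positivity
      linarith
    · rw [div_mul_eq_mul_div, div_mul_eq_mul_div, div_lt_div_iff₀ (by positivity) hR]
      have h1 : 0 < R * η + η * η := by positivity
      nlinarith
  -- the directions
  let M : ((i : ι) → Fin (cn i)) → ι → ℝ := fun a i => if i ∈ J then δ ^ r a i else 1
  have hM0 : ∀ a i, 0 < M a i := by
    intro a i
    simp only [M]
    split_ifs <;> positivity
  have hM1 : ∀ a i, M a i ≤ 1 := by
    intro a i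
    simp only [M]
    split_ifs
    · exact pow_le_one₀ hδ0.le hδ1
    · exact le_rfl
  let w : ((i : ι) → Fin (cn i)) → (i : ι) → E i := fun a i =>
    if h : (a i).1 < c i then u i ⟨(a i).1, h⟩ else 0
  have hwG : ∀ a i, gauge (K i) (w a i) ≤ G := by
    intro a i
    simp only [w]
    split_ifs
    · exact hG _ _
    · simpa using hG0
  let v : ((i : ι) → Fin (cn i)) → (i : ι) → E i := fun a i => M a i • w a i
  refine ⟨v, fun x hx1 => ?_⟩
  set s : ι → ℝ := fun i => gauge (K i) (x i) with hs
  rcases hx1.lt_or_eq with hlt | heq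
  · -- interior points
    refine ⟨fun i => ⟨0, hcn0 i⟩, (1 - N s) / (2 * (G * N1 + 1)), ?_, ?_⟩
    · have : 0 < 1 - N s := by linarith
      positivity
    · set a : (i : ι) → Fin (cn i) := fun i => ⟨0, hcn0 i⟩
      set ε := (1 - N s) / (2 * (G * N1 + 1)) with hεd
      have hε : 0 < ε := by
        have : 0 < 1 - N s := by linarith
        positivity
      have h1 : N (fun i => gauge (K i) (x i + ε • v a i)) ≤ N (s + (ε * G) • fun _ => 1) := by
        apply hN.mono' _ _ (fun i => gauge_nonneg _)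
        intro i
        have h2 := gauge_add hc h0 i (x i) (ε • v a i)
        have h3 : gauge (K i) (ε • v a i) ≤ ε * G := by
          rw [gauge_smul_of_nonneg hε.le, smul_eq_mul]
          have h4 : gauge (K i) (v a i) ≤ G := by
            simp only [v]
            rw [gauge_smul_of_nonneg (hM0 a i).le, smul_eq_mul]
            calc M a i * gauge (K i) (w a i) ≤ 1 * G :=
                  mul_le_mul (hM1 a i) (hwG a i) (gauge_nonneg _) (by norm_num)
              _ = G := one_mul _
          gcongr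
        change gauge (K i) (x i + ε • v a i) ≤ s i + ε * G * 1
        rw [mul_one]
        calc gauge (K i) (x i + ε • v a i) ≤ gauge (K i) (x i) + gauge (K i) (ε • v a i) := h2
          _ ≤ s i + ε * G := by simp only [hs]; linarith
      have h5 := hN.add s ((ε * G) • fun _ => 1)
      rw [hN.smul, abs_of_nonneg (by positivity)] at h5
      have h6 : ε * (2 * (G * N1 + 1)) = 1 - N s := by
        rw [hεd]
        field_simp
      have h7 : 0 ≤ G * N1 := by positivity
      have h8 : ε * G * N1 < 1 - N s := by nlinarith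
      linarith
  · -- boundary points
    classical
    let S : Finset ι := Finset.univ.filter fun i => x i ≠ 0
    have hS : ∀ i, i ∈ S ↔ x i ≠ 0 := by simp [S]
    have hS0 : ∀ i, i ∉ S → x i = 0 := by
      intro i hi
      by_contra h
      exact hi ((hS i).2 h)
    have hpos : ∀ i ∈ S, 0 < s i := by
      intro i hi
      exact (gauge_pos (absorbent_of_mem_nhds (h0 i))
        ((NormedSpace.isVonNBounded_iff ℝ).2 (hK i).isBounded)).2 ((hS i).1 hi)
    -- the labels
    have hlab : ∀ i, ∃ k : Fin (cn i), (i ∈ S → ∃ h : k.1 < c i, ∀ ε : ℝ, 0 ≤ ε → ε ≤ s i →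
        gauge (K i) (x i + ε • u i ⟨k.1, h⟩) ≤ s i - ε * η' i) ∧
        (i ∉ S → i ∉ J → ¬ k.1 < c i) := by
      intro i
      by_cases hi : i ∈ S
      · obtain ⟨j, hj⟩ := hu i (x i) ((hS i).1 hi)
        exact ⟨⟨j.1, j.2.trans_le (hcn i)⟩, fun _ => ⟨j.2, hj⟩, fun h => absurd hi h⟩
      · by_cases hiJ : i ∈ J
        · exact ⟨⟨0, hcn0 i⟩, fun h => absurd h hi, fun _ h => absurd hiJ h⟩
        · refine ⟨⟨c i, by rw [hcnJ' i hiJ]; omega⟩, fun h => absurd h hi, fun _ _ => ?_⟩
          simp
    choose σ hσ1 hσ2 using hlab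
    obtain ⟨a, ha1, ha2⟩ := hr3 (S ∩ J) Finset.inter_subset_right σ
    -- the scale
    let rs : ℕ := (S ∩ J).sup fun i => r a i
    have hrs1 : ∀ i ∈ S, δ ^ rs ≤ M a i := by
      intro i hi
      simp only [M]
      split_ifs with hiJ
      · apply pow_le_pow_of_le_one hδ0.le hδ1
        exact Finset.le_sup (f := fun i => r a i) (Finset.mem_inter.2 ⟨hi, hiJ⟩)
      · exact pow_le_one₀ hδ0.le hδ1
    have hrs2 : ∀ i, i ∉ S → i ∈ J → M a i ≤ δ * δ ^ rs := by
      intro i hi hiJ
      simp only [M]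
      rw [if_pos hiJ, ← pow_succ']
      apply pow_le_pow_of_le_one hδ0.le hδ1
      have hmem : i ∈ J \ (S ∩ J) := by
        simp [hiJ, hi]
      have h1 : rs < r a i := by
        rw [Finset.sup_lt_iff]
        · intro k hk
          exact ha2 k hk i hmem
        · have := (hr1 a i hiJ).1
          simp only [bot_eq_zero]
          omega
      omega
    set κ : ℝ := δ ^ rs with hκ
    have hκ0 : 0 < κ := by positivity
    have hκ1 : κ ≤ 1 := pow_le_one₀ hδ0.le hδ1
    -- the size of the step
    obtain ⟨ε, hε, hεs, hεR⟩ : ∃ ε : ℝ, 0 < ε ∧ (∀ i ∈ S, ε ≤ s i) ∧ ε * η / R ≤ 1 := by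
      obtain ⟨ε1, h1, h2⟩ : ∃ ε1 : ℝ, 0 < ε1 ∧ ∀ i ∈ S, ε1 ≤ s i := by
        rcases S.eq_empty_or_nonempty with h | h
        · exact ⟨1, one_pos, by simp [h]⟩
        · obtain ⟨i0, hi0, hmin⟩ := S.exists_min_image s h
          exact ⟨s i0, hpos i0 hi0, hmin⟩
      refine ⟨min ε1 (R / η), lt_min h1 (by positivity), fun i hi => (min_le_left _ _).trans (h2 i hi),
        ?_⟩
      rw [div_le_one hR]
      calc min ε1 (R / η) * η ≤ R / η * η := by gcongr; exact min_le_right _ _
        _ = R := by field_simp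
    refine ⟨a, ε, hε, ?_⟩
    -- the estimate
    have hmain : ∀ i, gauge (K i) (x i + ε • v a i) ≤
        (1 - ε * κ * η / R) * s i + (ε * (δ * κ) * G) := by
      intro i
      have hsR : s i ≤ R := hb s hx1 i
      have hs0 : 0 ≤ s i := gauge_nonneg _
      have hG' : 0 ≤ ε * (δ * κ) * G := by positivity
      by_cases hi : i ∈ S
      · have haσ : a i = σ i := ha1 i (by
          rw [Finset.mem_sdiff, Finset.mem_inter]
          tauto)
        obtain ⟨hk, hk2⟩ := hσ1 i hi
        have hw : w a i = u i ⟨(σ i).1, hk⟩ := by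
          have hk' : (a i).1 < c i := by rw [haσ]; exact hk
          simp only [w]
          rw [dif_pos hk']
          have hv2 : (a i).1 = (σ i).1 := by rw [haσ]
          congr 1
          exact Fin.ext hv2
        have h1 : x i + ε • v a i = x i + (ε * M a i) • u i ⟨(σ i).1, hk⟩ := by
          simp only [v]
          rw [hw, smul_smul]
        have h2 := hk2 (ε * M a i) (mul_nonneg hε.le (hM0 a i).le) (by
          have := hεs i hi
          have h3 := hM1 a i
          have h4 := (hM0 a i).le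
          nlinarith)
        rw [h1]
        have h5 : ε * κ * η ≤ ε * M a i * η' i := by
          have := hrs1 i hi
          have h6 := hηi i
          have h7 := (hM0 a i).le
          calc ε * κ * η ≤ ε * M a i * η := by gcongr
            _ ≤ ε * M a i * η' i := by gcongr
        have h8 : ε * κ * η / R * s i ≤ ε * κ * η := by
          rw [div_mul_eq_mul_div, div_le_iff₀ hR]
          have : 0 ≤ ε * κ * η := by positivity
          nlinarith
        nlinarith
      · have hxi : x i = 0 := hS0 i hi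
        have hsi : s i = 0 := by simp [hs, hxi]
        rw [hsi, mul_zero, zero_add]
        have h1 : x i + ε • v a i = (ε * M a i) • w a i := by
          simp only [v]
          rw [hxi, zero_add, smul_smul]
        rw [h1, gauge_smul_of_nonneg (mul_nonneg hε.le (hM0 a i).le), smul_eq_mul]
        by_cases hiJ : i ∈ J
        · have h2 := hrs2 i hi hiJ
          have h3 := hwG a i
          have h4 := (hM0 a i).le
          have h5 : 0 ≤ gauge (K i) (w a i) := gauge_nonneg _
          calc ε * M a i * gauge (K i) (w a i) ≤ ε * (δ * κ) * gauge (K i) (w a i) := by gcongr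
            _ ≤ ε * (δ * κ) * G := by gcongr
        · have haσ : a i = σ i := ha1 i (by
            rw [Finset.mem_sdiff]
            tauto)
          have hw : w a i = 0 := by
            simp only [w]
            rw [dif_neg (by rw [haσ]; exact hσ2 i hi hiJ)]
          rw [hw, gauge_zero, mul_zero]
          exact hG'
    have hlam : 0 ≤ 1 - ε * κ * η / R := by
      have : ε * κ * η / R ≤ ε * η / R := by
        gcongr
        nlinarith
      linarith
    have h1 : N (fun i => gauge (K i) (x i + ε • v a i)) ≤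
        N ((1 - ε * κ * η / R) • s + (ε * (δ * κ) * G) • fun _ => 1) := by
      apply hN.mono' _ _ (fun i => gauge_nonneg _)
      intro i
      simpa using hmain i
    have h2 := hN.add ((1 - ε * κ * η / R) • s) ((ε * (δ * κ) * G) • fun _ => 1)
    rw [hN.smul, hN.smul, abs_of_nonneg hlam, abs_of_nonneg (by positivity), heq] at h2
    have h3 : ε * (δ * κ) * G * N1 < ε * κ * η / R := by
      have h4 : ε * (δ * κ) * G * N1 = ε * κ * (δ * G * N1) := by ring
      have h5 : ε * κ * η / R = ε * κ * (η / R) := by ring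
      rw [h4, h5]
      have h6 : 0 < ε * κ := by positivity
      exact mul_lt_mul_of_pos_left hδ h6
    linarith

/-- The covering theorem for absolute sums. -/
theorem nsum_cov (hN : MonoNorm N) (hc : ∀ i, Convex ℝ (K i)) (hK : ∀ i, IsCompact (K i))
    (h0 : ∀ i, (0 : E i) ∈ interior (K i)) (c : ι → ℕ) (hcov : ∀ i, Cov (K i) (c i))
    (J : Finset ι) (hJ : ∑ i ∈ J, (1 : ℝ) / c i ≤ 1) :
    Cov (nsum N K) (∏ i, if i ∈ J then c i else c i + 1) := by
  obtain ⟨cn, hcn1, hcn2, hcn3⟩ : ∃ cn : ι → ℕ, (∀ i ∈ J, cn i = c i) ∧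
      (∀ i, i ∉ J → cn i = c i + 1) ∧ ∏ i, cn i = ∏ i, if i ∈ J then c i else c i + 1 :=
    ⟨fun i => if i ∈ J then c i else c i + 1, fun i hi => if_pos hi, fun i hi => if_neg hi, rfl⟩
  obtain ⟨v, hv⟩ := nsum_dirs hN hc hK h0 c hcov J hJ cn hcn1 hcn2
  have h3 : ∀ x ∈ nsum N K, ∃ a, ∃ ε : ℝ, 0 < ε ∧ x + ε • v a ∈ interior (nsum N K) := by
    intro x hx
    obtain ⟨a, ε, hε, h⟩ := hv x hx
    refine ⟨a, ε, hε, nsum_sub_interior hN hc h0 ?_⟩
    have h4 : (fun i => gauge (K i) ((x + ε • v a) i)) = fun i => gauge (K i) (x i + ε • v a i) := by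
      funext i
      rw [Pi.add_apply, Pi.smul_apply]
    rw [h4]
    exact h
  have h1 : Convex ℝ (nsum N K) := nsum_convex hN hc h0
  have h2 : IsCompact (nsum N K) := nsum_compact hN hc hK h0
  have h := cov_of_dirs (K := nsum N K) h1 h2 v
  have h6 := h h3
  have h5 : Fintype.card ((i : ι) → Fin (cn i)) = ∏ i, if i ∈ J then c i else c i + 1 := by
    rw [← hcn3, Fintype.card_pi]
    exact Finset.prod_congr rfl fun i _ => Fintype.card_fin _
  rw [h5] at h6
  exact h6

end

end Pool.Agent.Helper151_HC
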